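import Pool.Agent.Q224.EM.Dsg
import Pool.Agent.H888R2.KT.N5b

/-!
# Project FD (helper86): job FD-DSC, the fibres of the regularisation converge (helper224)
-/

set_option autoImplicit false

namespace Pool.Agent.Q224.EM

open MeasureTheory Set Filter Topology
open Pool.Agent.Q86.EM
open Pool.Agent.H888R2.KT (LC zz gc)
open Pool.Agent.H212R2.KLS (mu Bdd)
open Pool.Agent.Q86.FIB (Sp EK spl oo lp)
open Pool.Agent.Q251.EM (le_pt pt_cont_left pt_cont_right)

theorem gauss_int' (κ : Type) [Fintype κ] {c : ℝ} (hc : 0 < c) :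
    Integrable fun z : Eu κ => Real.exp (-(‖z‖ ^ 2 / c)) := by
  have h := (GaussianFourier.integrable_cexp_neg_mul_sq_norm_add (V := Eu κ) (b := ((1 / c : ℝ) : ℂ))
    (by rw [Complex.ofReal_re]; positivity) 0 0).norm
  refine h.congr (Eventually.of_forall fun z => ?_)
  simp only [Complex.norm_exp]
  congr 1
  simp only [zero_mul, add_zero]
  have : (-((1 / c : ℝ) : ℂ) * (‖z‖ : ℂ) ^ 2) = ((-(‖z‖ ^ 2 / c) : ℝ) : ℂ) := by push_cast; ring
  rw [this, Complex.ofReal_re]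

theorem four_le' (r : ℝ) (hr : 0 ≤ r) : (1 + r) ^ 4 ≤ 20000 * Real.exp (r ^ 2 / 32) := by
  have h1 := Real.quadratic_le_exp_of_nonneg (x := r ^ 2 / 32) (by positivity)
  have h2 : (1 + r) ^ 4 ≤ 8 * (1 + r ^ 4) := by
    nlinarith [sq_nonneg (r - 1), sq_nonneg (r ^ 2 - 1), mul_nonneg hr (sq_nonneg (r - 1)),
      mul_nonneg (sq_nonneg r) (sq_nonneg (r - 1)), sq_nonneg (r^2 - r)]
  have h3 : 0 ≤ r ^ 2 := sq_nonneg r
  nlinarith

theorem bnd_int' (κ : Type) [Fintype κ] {C : ℝ} (hC : 0 ≤ C) :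
    Integrable fun z : Eu κ => (1 + ‖z‖) ^ 4 * (C * Real.exp (-(‖z‖ ^ 2 / 16))) := by
  refine ((gauss_int' κ (c := 32) (by norm_num)).const_mul (C * 20000)).mono' (by fun_prop)
    (Eventually.of_forall fun z => ?_)
  rw [Real.norm_of_nonneg (by positivity)]
  have h1 := four_le' ‖z‖ (norm_nonneg z)
  have h2 : Real.exp (‖z‖ ^ 2 / 32) * Real.exp (-(‖z‖ ^ 2 / 16)) = Real.exp (-(‖z‖ ^ 2 / 32)) := by
    rw [← Real.exp_add]
    congr 1
    ring
  calc (1 + ‖z‖) ^ 4 * (C * Real.exp (-(‖z‖ ^ 2 / 16))) ≤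
        (20000 * Real.exp (‖z‖ ^ 2 / 32)) * (C * Real.exp (-(‖z‖ ^ 2 / 16))) :=
        mul_le_mul_of_nonneg_right h1 (by positivity)
    _ = C * 20000 * (Real.exp (‖z‖ ^ 2 / 32) * Real.exp (-(‖z‖ ^ 2 / 16))) := by ring
    _ = _ := by rw [h2]

section

variable {κ : Type} [Fintype κ] {ρ : Eu κ → ℝ}

/-- the regularisation in scaled variables -/
theorem sh_eq (hρ : LC ρ) {h : ℝ} (hh : 0 < h) (y : Eu κ) :
    sh h ρ y = (∫ v : Eu κ, ρ (y + Real.sqrt h • v) * Real.exp (-(‖v‖ ^ 2 / 2))) /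
      ∫ v : Eu κ, Real.exp (-(‖v‖ ^ 2 / 2)) := by
  have hs : 0 < Real.sqrt h := Real.sqrt_pos.2 hh
  have hn : ∀ v : Eu κ, ‖Real.sqrt h • v‖ ^ 2 / (2 * h) = ‖v‖ ^ 2 / 2 := by
    intro v
    rw [norm_smul, Real.norm_of_nonneg hs.le, mul_pow, Real.sq_sqrt hh.le]
    field_simp
  have hzz : zz h ρ y = ∫ x : Eu κ, ρ (y + x) * Real.exp (-(‖x‖ ^ 2 / (2 * h))) := by
    unfold zz
    rw [Pool.Agent.H888R2.KT.N5bx.conv hρ,
      ← integral_add_left_eq_self (fun x => ρ x * Real.exp (-(‖x - y‖ ^ 2 / (2 * h)))) y]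
    refine integral_congr_ae (Eventually.of_forall fun x => ?_)
    simp only [add_sub_cancel_left]
  have h1 := Measure.integral_comp_smul (volume : Measure (Eu κ))
    (fun x : Eu κ => ρ (y + x) * Real.exp (-(‖x‖ ^ 2 / (2 * h)))) (Real.sqrt h)
  have h2 := Measure.integral_comp_smul (volume : Measure (Eu κ))
    (fun x : Eu κ => Real.exp (-(‖x‖ ^ 2 / (2 * h)))) (Real.sqrt h)
  simp only [hn, smul_eq_mul] at h1 h2
  rw [h1, h2, ← hzz]
  unfold sh gc
  have hc : |(Real.sqrt h ^ Module.finrank ℝ (Eu κ))⁻¹| ≠ 0 := by positivity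
  rw [mul_div_mul_left _ _ hc]

theorem gc_pos' (κ : Type) [Fintype κ] : 0 < ∫ v : Eu κ, Real.exp (-(‖v‖ ^ 2 / 2)) :=
  integral_exp_pos (gauss_int' κ (by norm_num))

theorem sh_tendsto (hρ : LC ρ) {B : ℝ} (hB : ∀ x, ρ x ≤ B) {h : ℕ → ℝ} (hh : ∀ j, 0 < h j)
    (hl : Tendsto h atTop (𝓝 0)) {y : ℕ → Eu κ} {x₀ : Eu κ} (hy : Tendsto y atTop (𝓝 x₀))
    (hc : ContinuousAt ρ x₀) : Tendsto (fun j => sh (h j) ρ (y j)) atTop (𝓝 (ρ x₀)) := by
  have hpos := gc_pos' κ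
  have h1 : Tendsto (fun j => ∫ v : Eu κ, ρ (y j + Real.sqrt (h j) • v) * Real.exp (-(‖v‖ ^ 2 / 2)))
      atTop (𝓝 (∫ v : Eu κ, ρ x₀ * Real.exp (-(‖v‖ ^ 2 / 2)))) := by
    refine tendsto_integral_of_dominated_convergence (fun v : Eu κ => B * Real.exp (-(‖v‖ ^ 2 / 2)))
      (fun j => ?_) ((gauss_int' κ (by norm_num)).const_mul B)
      (fun j => Eventually.of_forall fun v => ?_) (Eventually.of_forall fun v => ?_)
    · refine Measurable.aestronglyMeasurable (Measurable.mul ?_ (by fun_prop))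
      exact hρ.meas.comp (by fun_prop)
    · rw [Real.norm_of_nonneg (mul_nonneg (hρ.nonneg _) (Real.exp_pos _).le)]
      exact mul_le_mul_of_nonneg_right (hB _) (Real.exp_pos _).le
    · refine Tendsto.mul_const _ ?_
      have h2 : Tendsto (fun j => Real.sqrt (h j)) atTop (𝓝 0) := by
        have := (Real.continuous_sqrt.tendsto 0).comp hl
        rwa [Real.sqrt_zero] at this
      have h3 : Tendsto (fun j => y j + Real.sqrt (h j) • v) atTop (𝓝 (x₀ + (0 : ℝ) • v)) :=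
        hy.add (h2.smul_const v)
      rw [zero_smul, add_zero] at h3
      exact hc.tendsto.comp h3
  have h2 := h1.div_const (∫ v : Eu κ, Real.exp (-(‖v‖ ^ 2 / 2)))
  rw [integral_const_mul, mul_div_assoc, div_self hpos.ne', mul_one] at h2
  refine h2.congr fun j => ?_
  rw [sh_eq hρ (hh j)]

end

/-- **job FD-DSC** -/
theorem dsc (h1 : S_DBD) (h2 : S_DSG) (h3 : S_DPT) : S_DSC := by
  intro n ρ hρ a b hab ha hb ε hε
  obtain ⟨⟨B, hB⟩, -, C, hC, hCx⟩ := h1 _ ρ hρ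
  obtain ⟨hsec, -⟩ := h2 n ρ hρ a b hab ha hb
  obtain ⟨R, hR⟩ := hρ.bdd
  have hB0 : 0 ≤ B := (hρ.nonneg 0).trans (hB 0)
  have hexp : ∀ h : ℝ, 0 < h → ∀ y, Real.exp (-Uh h ρ y) = sh h ρ y :=
    fun h hh => (h3 _ ρ hρ h hh).2.1
  have hcont : ∀ h : ℝ, 0 < h → Continuous (Uh h ρ) := fun h hh => by
    exact (h3 _ ρ hρ h hh).2.2.1.htg.1.continuous
  have hle : ∀ h : ℝ, 0 < h → h ≤ 1 → ∀ (t : ℝ) (z : Eu (Fin n)),
      Real.exp (-Uh h ρ (pt n t z)) ≤ C * Real.exp (-(‖z‖ ^ 2 / 16)) := by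
    intro h hh hh1 t z
    rw [hexp h hh]
    refine (hCx h hh hh1 _).trans (mul_le_mul_of_nonneg_left (Real.exp_le_exp.2 ?_) hC.le)
    have h4 : ‖z‖ ^ 2 ≤ ‖pt n t z‖ ^ 2 := pow_le_pow_left₀ (norm_nonneg _) (le_pt t z) 2
    linarith
  have hρle : ∀ (t : ℝ) (z : Eu (Fin n)),
      ρ (pt n t z) ≤ B * Real.exp (R ^ 2 / 16) * Real.exp (-(‖z‖ ^ 2 / 16)) := by
    intro t z
    rcases le_or_gt ‖z‖ R with h | h
    · have h4 : ‖z‖ ^ 2 ≤ R ^ 2 := pow_le_pow_left₀ (norm_nonneg _) h 2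
      have h5 : 1 ≤ Real.exp (R ^ 2 / 16) * Real.exp (-(‖z‖ ^ 2 / 16)) := by
        rw [← Real.exp_add]
        exact Real.one_le_exp (by linarith)
      calc ρ (pt n t z) ≤ B * 1 := by rw [mul_one]; exact hB _
        _ ≤ B * (Real.exp (R ^ 2 / 16) * Real.exp (-(‖z‖ ^ 2 / 16))) :=
            mul_le_mul_of_nonneg_left h5 hB0
        _ = _ := by ring
    · rw [hR _ (h.trans_le (le_pt t z))]
      positivity
  have hint : ∀ h : ℝ, 0 < h → h ≤ 1 → ∀ t : ℝ,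
      Integrable fun z : Eu (Fin n) => (1 + ‖z‖) ^ 4 * Real.exp (-Uh h ρ (pt n t z)) := by
    intro h hh hh1 t
    refine (bnd_int' (Fin n) hC.le).mono' ?_ (Eventually.of_forall fun z => ?_)
    · have h4 : Continuous fun z : Eu (Fin n) => Real.exp (-Uh h ρ (pt n t z)) :=
        Real.continuous_exp.comp ((hcont h hh).comp (pt_cont_right t)).neg
      exact ((by fun_prop : Continuous fun z : Eu (Fin n) => (1 + ‖z‖) ^ 4).mul h4).aestronglyMeasurable
    · rw [Real.norm_of_nonneg (by positivity)]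
      exact mul_le_mul_of_nonneg_left (hle h hh hh1 t z) (by positivity)
  by_contra hcon
  have hseq : ∀ j : ℕ, ∃ h t : ℝ, 0 < h ∧ h ≤ 1 / ((j : ℝ) + 1) ∧ t ∈ Icc a b ∧
      ε < ∫ z : Eu (Fin n), (1 + ‖z‖) ^ 4 * |Real.exp (-Uh h ρ (pt n t z)) - ρ (pt n t z)| := by
    intro j
    by_contra hj
    apply hcon
    refine ⟨1 / ((j : ℝ) + 1), by positivity, fun h hh hhj t ht => ⟨hint h hh ?_ t, ?_⟩⟩
    · refine hhj.trans ?_
      rw [div_le_one (by positivity)]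
      have : (0 : ℝ) ≤ j := Nat.cast_nonneg j
      linarith
    · by_contra h4
      exact hj ⟨h, t, hh, hhj, ht, not_le.1 h4⟩
  choose h t hh hhj ht hbig using hseq
  have hh1 : ∀ j, h j ≤ 1 := fun j => by
    refine (hhj j).trans ?_
    rw [div_le_one (by positivity)]
    have : (0 : ℝ) ≤ j := Nat.cast_nonneg j
    linarith
  have hlim0 : Tendsto h atTop (𝓝 0) :=
    squeeze_zero (fun j => (hh j).le) hhj (tendsto_one_div_add_atTop_nhds_zero_nat (𝕜 := ℝ))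
  obtain ⟨t₀, ht₀, φ, hφ, hlim⟩ := isCompact_Icc.tendsto_subseq ht
  have hlimh : Tendsto (fun j => h (φ j)) atTop (𝓝 0) := hlim0.comp hφ.tendsto_atTop
  obtain ⟨-, hae⟩ := hsec t₀ ht₀
  have hlimI : Tendsto (fun j => ∫ z : Eu (Fin n), (1 + ‖z‖) ^ 4 *
      |Real.exp (-Uh (h (φ j)) ρ (pt n (t (φ j)) z)) - ρ (pt n (t (φ j)) z)|) atTop
      (𝓝 (∫ z : Eu (Fin n), (0 : ℝ))) := by
    refine tendsto_integral_of_dominated_convergence
      (fun z : Eu (Fin n) => (1 + ‖z‖) ^ 4 * ((C + B * Real.exp (R ^ 2 / 16)) * Real.exp (-(‖z‖ ^ 2 / 16))))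
      (fun j => ?_) (bnd_int' (Fin n) (by positivity))
      (fun j => Eventually.of_forall fun z => ?_) ?_
    · have h4 : Measurable fun z : Eu (Fin n) => Real.exp (-Uh (h (φ j)) ρ (pt n (t (φ j)) z)) :=
        (Real.continuous_exp.comp ((hcont _ (hh _)).comp (pt_cont_right _)).neg).measurable
      have h5 : Measurable fun z : Eu (Fin n) => ρ (pt n (t (φ j)) z) :=
        hρ.meas.comp (pt_cont_right _).measurable
      have h6 : Measurable fun z : Eu (Fin n) => (1 + ‖z‖) ^ 4 := by fun_prop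
      have h7 : Measurable fun z : Eu (Fin n) =>
          |Real.exp (-Uh (h (φ j)) ρ (pt n (t (φ j)) z)) - ρ (pt n (t (φ j)) z)| := by
        have := (h4.sub h5).norm
        simpa [Real.norm_eq_abs] using this
      exact (h6.mul h7).aestronglyMeasurable
    · rw [Real.norm_of_nonneg (by positivity)]
      refine mul_le_mul_of_nonneg_left ?_ (by positivity)
      have h4 := hle _ (hh (φ j)) (hh1 (φ j)) (t (φ j)) z
      have h5 := hρle (t (φ j)) z
      have h6 := Real.exp_pos (-Uh (h (φ j)) ρ (pt n (t (φ j)) z))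
      have h7 := hρ.nonneg (pt n (t (φ j)) z)
      rw [add_mul, abs_le]
      constructor <;> linarith
    · filter_upwards [hae] with z hz
      have hpt : Tendsto (fun j => pt n (t (φ j)) z) atTop (𝓝 (pt n t₀ z)) :=
        ((pt_cont_left z).tendsto t₀).comp hlim
      have h4 : Tendsto (fun j => Real.exp (-Uh (h (φ j)) ρ (pt n (t (φ j)) z))) atTop
          (𝓝 (ρ (pt n t₀ z))) := by
        refine (sh_tendsto hρ hB (fun j => hh (φ j)) hlimh hpt hz).congr fun j => ?_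
        rw [hexp _ (hh _)]
      have h5 : Tendsto (fun j => ρ (pt n (t (φ j)) z)) atTop (𝓝 (ρ (pt n t₀ z))) :=
        hz.tendsto.comp hpt
      have h6 := ((h4.sub h5).abs).const_mul ((1 + ‖z‖) ^ 4)
      rw [sub_self, abs_zero, mul_zero] at h6
      exact h6
  rw [integral_zero] at hlimI
  obtain ⟨j, hj⟩ := (hlimI.eventually (gt_mem_nhds hε)).exists
  exact absurd (hbig (φ j)) (not_lt.2 hj.le)

end Pool.Agent.Q224.EM
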