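import Pool.Agent.Q86.EM.Stm5
import Pool.Agent.Q151.EM.Slg
import Pool.Agent.Q251.EM.Slc

/-!
# Project FD (helper86): job FD-DSG, geometry of the sections of a log-concave density (helper224)
-/

set_option autoImplicit false

namespace Pool.Agent.Q224.EM

open MeasureTheory Set Filter Topology
open Pool.Agent.Q86.EM
open Pool.Agent.H888R2.KT (LC)
open Pool.Agent.H212R2.KLS (mu Bdd)
open Pool.Agent.Q86.FIB (Sp EK spl oo lp)
open Pool.Agent.Q151.EM (zc pt_zc tc_pt pt_cont pt_cont_z tc_comb pt_comb sl_convex int_int int_int')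
open Pool.Agent.Q251.EM (le_pt)

/-- the support of a density -/
def sp {κ : Type} [Fintype κ] (ρ : Eu κ → ℝ) : Set (Eu κ) := {x | 0 < ρ x}

section

variable {κ : Type} [Fintype κ] {ρ : Eu κ → ℝ}

theorem sp_convex (hρ : LC ρ) : Convex ℝ (sp ρ) := by
  intro x hx y hy a b ha hb hab
  have hx' : 0 < ρ x := hx
  have hy' : 0 < ρ y := hy
  show 0 < ρ (a • x + b • y)
  rcases ha.eq_or_lt with h | h
  · have : b = 1 := by linarith
    rw [← h, this, zero_smul, one_smul, zero_add]
    exact hy'
  rcases hb.eq_or_lt with h' | h'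
  · have : a = 1 := by linarith
    rw [← h', this, zero_smul, one_smul, add_zero]
    exact hx'
  have h1 := hρ.logc x y b h' (by linarith)
  have e : 1 - b = a := by linarith
  rw [e] at h1
  exact lt_of_lt_of_le (by positivity) h1

theorem sp_meas (hρ : LC ρ) : MeasurableSet (sp ρ) := measurableSet_lt measurable_const hρ.meas

theorem sp_pos (hρ : LC ρ) : volume (sp ρ) ≠ 0 := by
  intro h0
  apply hρ.ne
  unfold mu
  rw [withDensity_eq_zero_iff hρ.meas.ennreal_ofReal.aemeasurable]
  have h1 : ∀ᵐ x : Eu κ, x ∉ sp ρ := measure_eq_zero_iff_ae_notMem.1 h0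
  filter_upwards [h1] with x hx
  have h2 : ρ x ≤ 0 := not_lt.1 hx
  simpa using h2

theorem sp_int (hρ : LC ρ) : (interior (sp ρ)).Nonempty := by
  by_contra h
  rw [not_nonempty_iff_eq_empty] at h
  apply sp_pos hρ
  have h1 : sp ρ ⊆ frontier (sp ρ) := by
    rw [frontier, h, Set.diff_empty]
    exact subset_closure
  exact measure_mono_null h1 ((sp_convex hρ).addHaar_frontier volume)

/-- continuity at interior points of the support -/
theorem cont_int (hρ : LC ρ) {x : Eu κ} (hx : x ∈ interior (sp ρ)) : ContinuousAt ρ x := by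
  have hc : ConvexOn ℝ (sp ρ) (fun x => -Real.log (ρ x)) := by
    refine ⟨sp_convex hρ, ?_⟩
    intro x hx y hy a b ha hb hab
    have hx' : 0 < ρ x := hx
    have hy' : 0 < ρ y := hy
    simp only [smul_eq_mul]
    rcases ha.eq_or_lt with h | h
    · have : b = 1 := by linarith
      rw [← h, this, zero_smul, one_smul, zero_add]
      simp
    rcases hb.eq_or_lt with h' | h'
    · have : a = 1 := by linarith
      rw [← h', this, zero_smul, one_smul, add_zero]
      simp
    have h1 := hρ.logc x y b h' (by linarith)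
    have e : 1 - b = a := by linarith
    rw [e] at h1
    have h2 := Real.log_le_log (by positivity) h1
    rw [Real.log_mul (by positivity) (by positivity), Real.log_rpow hx', Real.log_rpow hy'] at h2
    linarith
  have h1 : ContinuousAt (fun x => -Real.log (ρ x)) x :=
    (hc.continuousOn_interior x hx).continuousAt (isOpen_interior.mem_nhds hx)
  have h2 : ContinuousAt (fun x => Real.exp (-(-Real.log (ρ x)))) x :=
    Real.continuous_exp.continuousAt.comp h1.neg
  refine h2.congr ?_
  filter_upwards [isOpen_interior.mem_nhds hx] with y hy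
  have hy' : 0 < ρ y := interior_subset (s := sp ρ) hy
  rw [neg_neg, Real.exp_log hy']

/-- continuity outside of the closure of the support -/
theorem cont_out (hρ : LC ρ) {x : Eu κ} (hx : x ∉ closure (sp ρ)) : ContinuousAt ρ x := by
  have h1 : ContinuousAt (fun _ : Eu κ => (0 : ℝ)) x := continuousAt_const
  refine h1.congr ?_
  filter_upwards [isClosed_closure.isOpen_compl.mem_nhds hx] with y hy
  have h2 : y ∉ sp ρ := fun h => hy (subset_closure h)
  exact le_antisymm (hρ.nonneg y) (not_lt.1 h2)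

end

section

variable {n : ℕ}

/-- over every inner value of the first coordinate there is an interior point -/
theorem exists_int' {D : Set (EK 1 n)} (hD : Convex ℝ D) (hne : (interior D).Nonempty) {a b : ℝ}
    (h0 : ∃ x ∈ D, tc x < a) (h1 : ∃ x ∈ D, b < tc x) {t : ℝ} (ht : t ∈ Icc a b) :
    ∃ z : Eu (Fin n), pt n t z ∈ interior D := by
  obtain ⟨p, hp⟩ := hne
  obtain ⟨q₀, hq₀, hq₀a⟩ := h0
  obtain ⟨q₁, hq₁, hq₁b⟩ := h1
  obtain ⟨hta, htb⟩ := ht
  have key : ∀ q ∈ D, ∀ s : ℝ, 0 < s → s < 1 → (1 - s) * tc p + s * tc q = t →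
      ∃ z : Eu (Fin n), pt n t z ∈ interior D := by
    intro q hq s hs0 hs1 hst
    have h2 := hD.openSegment_interior_self_subset_interior hp hq
      ⟨1 - s, s, by linarith, hs0, by ring, rfl⟩
    refine ⟨zc ((1 - s) • p + s • q), ?_⟩
    rw [← hst, ← tc_comb, pt_zc]
    exact h2
  rcases lt_trichotomy (tc p) t with h | h | h
  · have hd : 0 < tc q₁ - tc p := by linarith
    refine key q₁ hq₁ ((t - tc p) / (tc q₁ - tc p)) (div_pos (by linarith) hd) ?_ ?_
    · rw [div_lt_one hd]; linarith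
    · field_simp
      ring
  · refine ⟨zc p, ?_⟩
    rw [← h, pt_zc]
    exact hp
  · have hd : 0 < tc p - tc q₀ := by linarith
    refine key q₀ hq₀ ((tc p - t) / (tc p - tc q₀)) (div_pos (by linarith) hd) ?_ ?_
    · rw [div_lt_one hd]; linarith
    · field_simp
      ring

/-- points outside of the closure of the section are outside of the closure -/
theorem out_out {D : Set (EK 1 n)} (hD : Convex ℝ D) {t : ℝ} {z p : Eu (Fin n)}
    (hp : pt n t p ∈ interior D) (hz : z ∉ closure (sl D t)) : pt n t z ∉ closure D := by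
  intro h0
  apply hz
  have h1 : Tendsto (fun j : ℕ => (1 / ((j : ℝ) + 2)) • p + (1 - 1 / ((j : ℝ) + 2)) • z) atTop
      (𝓝 ((0 : ℝ) • p + (1 - 0 : ℝ) • z)) := by
    have h2 : Tendsto (fun j : ℕ => 1 / ((j : ℝ) + 2)) atTop (𝓝 0) := by
      have := tendsto_one_div_add_atTop_nhds_zero_nat (𝕜 := ℝ)
      have h3 := (tendsto_add_atTop_iff_nat 1).2 this
      refine h3.congr fun j => ?_
      push_cast
      ring_nf
    exact (h2.smul_const p).add ((tendsto_const_nhds.sub h2).smul_const z)
  rw [zero_smul, zero_add, sub_zero, one_smul] at h1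
  refine mem_closure_of_tendsto h1 (Eventually.of_forall fun j => ?_)
  have hj : (0 : ℝ) < (j : ℝ) + 2 := by positivity
  have h3 := hD.openSegment_interior_closure_subset_interior hp h0
    ⟨1 / ((j : ℝ) + 2), 1 - 1 / ((j : ℝ) + 2), by positivity, by
      rw [sub_pos, div_lt_one hj]
      have : (0 : ℝ) ≤ j := Nat.cast_nonneg j
      linarith, by ring, rfl⟩
  rw [pt_comb] at h3
  have e : 1 / ((j : ℝ) + 2) * t + (1 - 1 / ((j : ℝ) + 2)) * t = t := by ring
  rw [e] at h3
  exact interior_subset (s := D) h3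

theorem sec_ae {ρ : EK 1 n → ℝ} (hρ : LC ρ) {t : ℝ} {p : Eu (Fin n)}
    (hp : pt n t p ∈ interior (sp ρ)) : ∀ᵐ z : Eu (Fin n), ContinuousAt ρ (pt n t z) := by
  have h1 : ∀ᵐ z : Eu (Fin n), z ∉ frontier (sl (sp ρ) t) :=
    measure_eq_zero_iff_ae_notMem.1 ((sl_convex (sp_convex hρ) t).addHaar_frontier volume)
  filter_upwards [h1] with z hz
  by_cases h2 : z ∈ interior (sl (sp ρ) t)
  · exact cont_int hρ (int_int' (sp_convex hρ) hp h2)
  · have h3 : z ∉ closure (sl (sp ρ) t) := fun h => hz ⟨h, h2⟩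
    exact cont_out hρ (out_out (sp_convex hρ) hp h3)

theorem sec_int {ρ : EK 1 n → ℝ} (hρ : LC ρ) {B : ℝ} (hB : ∀ x, ρ x ≤ B) (t : ℝ) :
    Integrable fun z : Eu (Fin n) => ρ (pt n t z) := by
  obtain ⟨R, hR⟩ := hρ.bdd
  have h1 : IntegrableOn (fun _ : Eu (Fin n) => B) (Metric.closedBall 0 R) :=
    integrableOn_const (hs := measure_closedBall_lt_top.ne)
  have h2 : Integrable ((Metric.closedBall (0 : Eu (Fin n)) R).indicator fun _ => B) :=
    h1.integrable_indicator Metric.isClosed_closedBall.measurableSet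
  refine h2.mono' (hρ.meas.comp (pt_cont_z t).measurable).aestronglyMeasurable
    (Eventually.of_forall fun z => ?_)
  rw [Real.norm_of_nonneg (hρ.nonneg _)]
  by_cases hz : z ∈ Metric.closedBall (0 : Eu (Fin n)) R
  · rw [indicator_of_mem hz]
    exact hB _
  · rw [indicator_of_notMem hz]
    rw [mem_closedBall_zero_iff, not_le] at hz
    exact (hR _ (hz.trans_le (le_pt t z))).le

theorem sec_lc {ρ : EK 1 n → ℝ} (hρ : LC ρ) {B : ℝ} (hB : ∀ x, ρ x ≤ B) {t : ℝ} {p : Eu (Fin n)}
    (hp : pt n t p ∈ interior (sp ρ)) : LC (fun z : Eu (Fin n) => ρ (pt n t z)) := by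
  have hI := sec_int hρ hB t
  have hm : Measurable fun z : Eu (Fin n) => ρ (pt n t z) := hρ.meas.comp (pt_cont_z t).measurable
  refine ⟨fun z => hρ.nonneg _, hm, ?_, ?_, ?_, ?_⟩
  · intro z w s hs0 hs1
    have h1 := hρ.logc (pt n t z) (pt n t w) s hs0 hs1
    rw [pt_comb] at h1
    have e : (1 - s) * t + s * t = t := by ring
    rw [e] at h1
    exact h1
  · obtain ⟨R, hR⟩ := hρ.bdd
    exact ⟨R, fun z hz => hR _ (hz.trans_le (le_pt t z))⟩
  · unfold mu
    rw [withDensity_apply _ MeasurableSet.univ, Measure.restrict_univ]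
    have h1 := hI.2
    rw [hasFiniteIntegral_iff_ofReal (Eventually.of_forall fun z => hρ.nonneg _)] at h1
    exact h1.ne
  · intro h0
    unfold mu at h0
    rw [withDensity_eq_zero_iff hm.ennreal_ofReal.aemeasurable] at h0
    have h1 : IsOpen ((fun z : Eu (Fin n) => pt n t z) ⁻¹' interior (sp ρ)) :=
      isOpen_interior.preimage (pt_cont_z t)
    have h2 : 0 < volume ((fun z : Eu (Fin n) => pt n t z) ⁻¹' interior (sp ρ)) :=
      h1.measure_pos volume ⟨p, hp⟩
    have h3 : ∀ᵐ z : Eu (Fin n), z ∉ (fun z : Eu (Fin n) => pt n t z) ⁻¹' interior (sp ρ) := by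
      filter_upwards [h0] with z hz hz2
      have h4 : 0 < ρ (pt n t z) := interior_subset (s := sp ρ) hz2
      simp only [Pi.zero_apply, ENNReal.ofReal_eq_zero] at hz
      linarith
    exact h2.ne' (measure_eq_zero_iff_ae_notMem.2 h3)

end

/-- **job FD-DSG** -/
theorem dsg (h1 : S_DBD) : S_DSG := by
  intro n ρ hρ a b hab ha hb
  obtain ⟨⟨B, hB⟩, -, -⟩ := h1 _ ρ hρ
  have hS := sp_convex hρ
  have hSi := sp_int hρ
  have ha' : ∃ x ∈ sp ρ, tc x < a := by
    obtain ⟨x, hx, hxa⟩ := ha
    exact ⟨x, hx, hxa⟩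
  have hb' : ∃ x ∈ sp ρ, b < tc x := by
    obtain ⟨x, hx, hxb⟩ := hb
    exact ⟨x, hx, hxb⟩
  refine ⟨fun t ht => ?_, ?_⟩
  · obtain ⟨p, hp⟩ := exists_int' hS hSi ha' hb' ht
    exact ⟨sec_lc hρ hB hp, sec_ae hρ hp⟩
  · have hK : IsCompact (Icc a b) := isCompact_Icc
    refine hK.induction_on (p := fun s => ∃ v : ℝ, 0 < v ∧ ∀ t ∈ s, v ≤ ∫ z : Eu (Fin n), ρ (pt n t z))
      ⟨1, one_pos, fun t ht => absurd ht (notMem_empty t)⟩ ?_ ?_ ?_
    · rintro s s' hss ⟨v, hv, h⟩
      exact ⟨v, hv, fun t ht => h t (hss ht)⟩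
    · rintro s s' ⟨v, hv, h⟩ ⟨v', hv', h'⟩
      refine ⟨min v v', lt_min hv hv', fun t ht => ?_⟩
      rcases ht with ht | ht
      · exact (min_le_left _ _).trans (h t ht)
      · exact (min_le_right _ _).trans (h' t ht)
    · intro t ht
      obtain ⟨p, hp⟩ := exists_int' hS hSi ha' hb' ht
      have hpos : 0 < ρ (pt n t p) := interior_subset (s := sp ρ) hp
      have hc : ContinuousAt (fun q : ℝ × Eu (Fin n) => ρ (pt n q.1 q.2)) (t, p) :=
        ContinuousAt.comp (f := fun q : ℝ × Eu (Fin n) => pt n q.1 q.2) (x := (t, p))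
          (cont_int hρ hp) pt_cont.continuousAt
      have h2 : ∀ᶠ q : ℝ × Eu (Fin n) in 𝓝 (t, p), ρ (pt n t p) / 2 < ρ (pt n q.1 q.2) :=
        hc.eventually (lt_mem_nhds (by simp only; linarith))
      obtain ⟨δ, hδ, h4⟩ := Metric.eventually_nhds_iff.1 h2
      refine ⟨Metric.ball t δ, mem_nhdsWithin_of_mem_nhds (Metric.ball_mem_nhds t hδ),
        ρ (pt n t p) / 2 * (volume (Metric.ball p δ)).toReal, ?_, fun s hs => ?_⟩
      · refine mul_pos (by linarith) (ENNReal.toReal_pos (Metric.measure_ball_pos volume p hδ).ne'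
          measure_ball_lt_top.ne)
      · have hI := sec_int hρ hB s
        calc ρ (pt n t p) / 2 * (volume (Metric.ball p δ)).toReal =
              ∫ _z in Metric.ball p δ, ρ (pt n t p) / 2 := by
              rw [setIntegral_const, smul_eq_mul, mul_comm]
              rfl
          _ ≤ ∫ z in Metric.ball p δ, ρ (pt n s z) := by
              refine setIntegral_mono_on (integrableOn_const (hs := measure_ball_lt_top.ne))
                hI.integrableOn Metric.isOpen_ball.measurableSet fun z hz => ?_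
              have h5 : dist ((s, z) : ℝ × Eu (Fin n)) (t, p) < δ := by
                rw [Prod.dist_eq]
                exact max_lt hs hz
              exact (h4 h5).le
          _ ≤ ∫ z : Eu (Fin n), ρ (pt n s z) :=
              setIntegral_le_integral hI (Eventually.of_forall fun z => hρ.nonneg _)

end Pool.Agent.Q224.EM
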